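import Pool.Agent.H41.LX.Main

set_option autoImplicit false

namespace Pool.Agent.Results.MP_99407b_lc.NotCoprojective

open Pool.Agent.H47.LInf Pool.Agent.H41.LX Cardinal

/-- The class `𝒞_u` is not the class of models of a sentence of `L_{∞∞}`. More generally let `𝒟` be any
class of lattices which contains `Id_c V` for all Archimedean real vector lattices `V` with an
order-unit and is contained in the class of all `Id_c G`, `G` an Abelian `ℓ`-group. Then `𝒟` is not the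
class of models of a sentence, nor of a class of sentences with bounded quantifier blocks, some member
has an elementary embedding into a non-member (for arbitrarily large bounds `κ`), and the complement of
`𝒟` is not a projective class. -/
theorem result.{u, v} :
    (¬ ∃ φ : Sentence.{u}, ∀ (L : Type u) [Lattice L], Models L φ ↔ InCu L) ∧
    ∀ 𝒟 : (L : Type u) → [Lattice L] → Prop,
      (∀ (L : Type u) [Lattice L], InRV L → 𝒟 L) →
      (∀ (L : Type u) [Lattice L], 𝒟 L → InAb.{u, v} L) →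
        (¬ ∃ φ : Sentence.{u}, ∀ (L : Type u) [Lattice L], Models L φ ↔ 𝒟 L) ∧
        (∀ (κ : Cardinal.{u}) (Φ : Set Sentence.{u}), (∀ φ ∈ Φ, φ.bd ≤ κ) →
          ¬ ∀ (L : Type u) [Lattice L], (∀ φ ∈ Φ, Models L φ) ↔ 𝒟 L) ∧
        (∀ κ : Cardinal.{u}, ∃ (L L' : Type u) (_ : Lattice L) (_ : Lattice L') (f : L → L'),
          𝒟 L ∧ ¬ 𝒟 L' ∧ Elem κ f ∧ Function.Injective f ∧ (∀ a b, f (a ⊔ b) = f a ⊔ f b) ∧
            ∀ a b, f (a ⊓ b) = f a ⊓ f b) ∧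
        ¬ ∃ (σ : Voc.{u}) (ψ : Fm σ PEmpty.{u + 1}), ∀ (L : Type u) [Lattice L],
          IsReduct L ψ ↔ ¬ 𝒟 L := by
  have bounded : ∀ 𝒟 : (L : Type u) → [Lattice L] → Prop, ∀ (κ : Cardinal.{u}),
      (∃ (L L' : Type u) (_ : Lattice L) (_ : Lattice L') (f : L → L'),
        𝒟 L ∧ ¬ 𝒟 L' ∧ Elem κ f) → ∀ (Φ : Set Sentence.{u}), (∀ φ ∈ Φ, φ.bd ≤ κ) →
        ¬ ∀ (L : Type u) [Lattice L], (∀ φ ∈ Φ, Models L φ) ↔ 𝒟 L := by
    rintro 𝒟 κ ⟨L, L', i1, i2, f, h1, h2, h3⟩ Φ hΦ hall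
    apply h2
    rw [← hall L']
    intro φ hφ
    have h4 := h3 PEmpty (by rw [mk_pempty]; exact zero_le) φ (hΦ φ hφ) PEmpty.elim
    have h5 : (f ∘ PEmpty.elim : PEmpty → L') = PEmpty.elim := by
      funext x
      exact x.elim
    rw [h5] at h4
    exact h4.1 ((hall L).2 h1 φ hφ)
  refine ⟨?_, fun 𝒟 hD₁ hD₂ => ?_⟩
  · rintro ⟨φ, hφ⟩
    obtain ⟨L, L', i1, i2, f, h1, h2, h3, -⟩ := exists_pair.{u, u} φ.bd
    refine bounded InCu φ.bd ⟨L, L', i1, i2, f, h1.inCu, fun h4 => h2 ?_, h3⟩ {φ} (by simp) ?_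
    · obtain ⟨G, j1, j2, j3, -, -, h5⟩ := h4
      exact ⟨G, j1, j2, j3, h5⟩
    · intro L _
      simpa using hφ L
  · have hpair : ∀ κ : Cardinal.{u}, ∃ (L L' : Type u) (_ : Lattice L) (_ : Lattice L')
        (f : L → L'), 𝒟 L ∧ ¬ 𝒟 L' ∧ Elem κ f ∧ Function.Injective f ∧
          (∀ a b, f (a ⊔ b) = f a ⊔ f b) ∧ ∀ a b, f (a ⊓ b) = f a ⊓ f b := by
      intro κ
      obtain ⟨L, L', i1, i2, f, h1, h2, h3⟩ := exists_pair.{u, v} κ
      exact ⟨L, L', i1, i2, f, hD₁ L h1, fun h4 => h2 (hD₂ L' h4), h3⟩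
    have hbd : ∀ (κ : Cardinal.{u}) (Φ : Set Sentence.{u}), (∀ φ ∈ Φ, φ.bd ≤ κ) →
        ¬ ∀ (L : Type u) [Lattice L], (∀ φ ∈ Φ, Models L φ) ↔ 𝒟 L := by
      intro κ Φ hΦ
      obtain ⟨L, L', i1, i2, f, h1, h2, h3, -⟩ := hpair κ
      exact bounded 𝒟 κ ⟨L, L', i1, i2, f, h1, h2, h3⟩ Φ hΦ
    refine ⟨?_, hbd, hpair, ?_⟩
    · rintro ⟨φ, hφ⟩
      apply hbd φ.bd {φ} (by simp)
      intro L _
      simpa using hφ L
    · rintro ⟨σ, ψ, hψ⟩
      obtain ⟨L', i', h1, h2⟩ := not_projective.{u, v} ψ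
        fun L _ hL hred => (hψ L).1 hred (hD₁ L hL)
      exact h2 ((hψ L').2 fun h3 => h1 (hD₂ L' h3))

end Pool.Agent.Results.MP_99407b_lc.NotCoprojective
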